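import Mathlib
import Pool.Agent.H882R3.PoiStmt

set_option autoImplicit false

/-!
# Poisson–de Rham homology is not the Hochschild homology of quantizations: a non-normal surface

`XRing = ℂ + 𝔪²` is the Poisson algebra of polynomials in `ℂ[x, y]` without linear terms at the
origin; the plane `𝔸²` is a symplectic resolution of `X = Spec XRing` with `H²(𝔸²) = 0`.
Every deformation quantization `Q` of `ℂ[x, y]` has `HH₀(Q[ħ⁻¹]) = 0`, but `HP₀^{DR}(X)` is
one-dimensional.
-/

namespace Pool.Agent.Results.MP_86c931_ag.NonNormalPlane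

open Pool.Agent.H882R3.Poi Pool.Agent.H882R3.PoiS

/-- `𝔸² = Spec Plane → X = Spec XRing` is a symplectic resolution of the irreducible affine Poisson
variety `X`; `H²(𝔸²) = 0` (every 2-form is exact; so there is one parameter); `HP₀^{DR}(X)` has
dimension `1`; and for every deformation quantization `Q` of `𝒪(𝔸²)`, every element of
`L = Q[ħ⁻¹]` is a commutator, so that `HH₀(L) = L / [L, L] = 0`. -/
theorem result :
    IsAffinePoisson XRing brX ∧ IsSymplectic Plane brP ∧ IsResolution brX brP incl ∧
      TwoFormsExact Plane ∧ dimHP0 XRing brX = 1 ∧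
      ∀ (Q : Type) [Ring Q] [Algebra (PowerSeries ℂ) Q] (π : Q →+* Plane),
        IsQuantization Plane brP Q π →
        ∀ (L : Type) [Ring L] [Algebra (LaurentSeries ℂ) L] (j : Q →+* L),
          IsInvert Q L j → ∀ l : L, ∃ u v : L, u * v - v * u = l :=
  ⟨isAffinePoisson, isSymplectic, isResolution, twoFormsExact, dimHP0_eq,
    fun Q _ _ π hQ L _ _ j hL l => HH0_eq_zero (Q := Q) (π := π) hQ (L := L) (j := j) hL l⟩

end Pool.Agent.Results.MP_86c931_ag.NonNormalPlane
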